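import Pool.Agent.H348R6.GV1

set_option autoImplicit false

/-! Extending `κ`-complete filters to filters failing the Galvin property at `2 ^ κ`. -/

namespace Pool.Agent.TH759.GP

open Cardinal Set Pool.Agent.H348R6.GV

universe u

variable {κ : Cardinal.{u}}

/-- The number of pairs `(b, R)`, `R` a subset of the initial segment of `b`. -/
theorem mk_sigma_le (hκ : κ.IsRegular) (hpow : ∀ μ < κ, (2 : Cardinal.{u}) ^ μ ≤ κ) :
    #(Σ b : κ.ord.ToType, Set (Iio b)) ≤ κ := by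
  rw [mk_sigma]
  refine (sum_le_sum _ (fun _ => κ) (fun b => ?_)).trans ?_
  · rw [mk_set]
    exact hpow _ ((mk_le_mk_of_subset Iio_subset_Iic_self).trans_lt (mk_Iic_lt hκ b))
  · simp only [sum_const, lift_id, Cardinal.mk_toType, card_ord]
    rw [mul_eq_self hκ.aleph0_le]

/-- Weakly independent sets: subsets `D i` (`i ⊆ κ`) of `κ` such that no `D i` contains the
intersection of fewer than `κ` others. -/
theorem exists_indep (hκ : κ.IsRegular) (hpow : ∀ μ < κ, (2 : Cardinal.{u}) ^ μ ≤ κ) :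
    ∃ D : Set κ.ord.ToType → Set κ.ord.ToType,
      ∀ (J : Set (Set κ.ord.ToType)) (i : Set κ.ord.ToType), #J < κ → i ∉ J →
        ∃ d, d ∉ D i ∧ ∀ j ∈ J, d ∈ D j := by
  classical
  have hne := nonempty_toType hκ
  -- codes of initial segments
  have hc : ∀ a : κ.ord.ToType, ∃ c : Set (Iio a) → κ.ord.ToType, Function.Injective c := by
    intro a
    have h1 : #(Set (Iio a)) ≤ #(κ.ord.ToType) := by
      rw [mk_set, Cardinal.mk_toType, card_ord]
      exact hpow _ ((mk_le_mk_of_subset Iio_subset_Iic_self).trans_lt (mk_Iic_lt hκ a))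
    obtain ⟨c⟩ := h1
    exact ⟨c, c.injective⟩
  choose c hc using hc
  -- codes of the index set
  have he : #(κ.ord.ToType × (Σ b : κ.ord.ToType, Set (Iio b))) ≤ #(κ.ord.ToType) := by
    simp only [mk_prod, lift_id, Cardinal.mk_toType, card_ord]
    refine (mul_le_mul_right (mk_sigma_le hκ hpow) κ).trans ?_
    rw [mul_eq_self hκ.aleph0_le]
  obtain ⟨e⟩ := he
  let tr : Set κ.ord.ToType → κ.ord.ToType → κ.ord.ToType := fun i a => c a {x | x.1 ∈ i}
  refine ⟨fun i => {d | ∃ (a b : κ.ord.ToType) (R : Set (Iio b)), d = e (a, ⟨b, R⟩) ∧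
    ∃ h : tr i a < b, (⟨tr i a, h⟩ : Iio b) ∈ R}, fun J i hJ hi => ?_⟩
  -- a point separating `i` from all `j ∈ J`
  have hsep : ∀ j : J, ∃ x : κ.ord.ToType, ¬ (x ∈ i ↔ x ∈ j.1) := by
    rintro ⟨j, hj⟩
    by_contra hcon
    push Not at hcon
    exact hi ((Set.ext hcon : i = j) ▸ hj)
  choose x hx using hsep
  obtain ⟨a, ha⟩ := bdd_of_lt hκ x hJ
  obtain ⟨b, hb⟩ := bdd_of_lt hκ (fun j : J => tr j.1 a) hJ
  have htr : ∀ j : J, tr i a ≠ tr j.1 a := by
    intro j heq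
    have h1 := hc a heq
    have h2 := Set.ext_iff.1 h1 ⟨x j, ha j⟩
    exact hx j (by simpa using h2)
  let R : Set (Iio b) := {y | ∃ j : J, y.1 = tr j.1 a}
  refine ⟨e (a, ⟨b, R⟩), ?_, fun j hj => ?_⟩
  · rintro ⟨a', b', R', heq, h, hR⟩
    have h1 := e.injective heq
    simp only [Prod.mk.injEq, Sigma.mk.injEq] at h1
    obtain ⟨rfl, rfl, hRR⟩ := h1
    have hRR' : R = R' := eq_of_heq hRR
    rw [← hRR'] at hR
    obtain ⟨j, hj⟩ := hR
    exact htr j hj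
  · exact ⟨a, b, R, rfl, hb ⟨j, hj⟩, ⟨j, hj⟩, rfl⟩

/-- The filter of the construction. -/
def extFilter (hκ : κ.IsRegular) (F₀ : Filter κ.ord.ToType)
    (D : Set κ.ord.ToType → Set κ.ord.ToType) (P : κ.ord.ToType → Set κ.ord.ToType) :
    Filter κ.ord.ToType where
  sets := {X | ∃ J : Set (Set κ.ord.ToType), #J < κ ∧
    ∀ d, (∀ j ∈ J, d ∈ D j) → (P d \ X)ᶜ ∈ F₀}
  univ_sets := ⟨∅, by simpa using hκ.pos, fun d _ => by simp⟩
  sets_of_superset := by
    rintro X Y ⟨J, hJ, hX⟩ hXY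
    refine ⟨J, hJ, fun d hd => Filter.mem_of_superset (hX d hd) ?_⟩
    exact compl_subset_compl.2 (sdiff_subset_sdiff_right hXY)
  inter_sets := by
    rintro X Y ⟨J, hJ, hX⟩ ⟨K, hK, hY⟩
    refine ⟨J ∪ K, ?_, fun d hd => ?_⟩
    · exact (mk_union_le J K).trans_lt (add_lt_of_lt hκ.aleph0_le hJ hK)
    · have h1 := hX d (fun i hi => hd i (Or.inl hi))
      have h2 := hY d (fun i hi => hd i (Or.inr hi))
      refine Filter.mem_of_superset (Filter.inter_mem h1 h2) ?_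
      rintro a ⟨ha1, ha2⟩ ⟨ha3, ha4⟩
      by_cases haX : a ∈ X
      · exact ha2 ⟨ha3, fun haY => ha4 ⟨haX, haY⟩⟩
      · exact ha1 ⟨ha3, haX⟩

theorem mem_extFilter (hκ : κ.IsRegular) (F₀ : Filter κ.ord.ToType)
    (D : Set κ.ord.ToType → Set κ.ord.ToType) (P : κ.ord.ToType → Set κ.ord.ToType)
    (X : Set κ.ord.ToType) : X ∈ extFilter hκ F₀ D P ↔ ∃ J : Set (Set κ.ord.ToType), #J < κ ∧
    ∀ d, (∀ j ∈ J, d ∈ D j) → (P d \ X)ᶜ ∈ F₀ := Iff.rfl

/-- Main construction. -/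
theorem ext_main (hκ : κ.IsRegular)
    (hpow : ∀ μ < κ, (2 : Cardinal.{u}) ^ μ ≤ κ) (F₀ : Filter κ.ord.ToType)
    (h₀ : ∀ S : Set (Set κ.ord.ToType), #S < κ → (∀ s ∈ S, s ∈ F₀) → ⋂₀ S ∈ F₀)
    (P : κ.ord.ToType → Set κ.ord.ToType) (hP : ∀ d, (P d)ᶜ ∉ F₀)
    (hd : ∀ d d', d ≠ d' → Disjoint (P d) (P d')) :
    ∃ F : Filter κ.ord.ToType, F.NeBot ∧
      (∀ S : Set (Set κ.ord.ToType), #S < κ → (∀ s ∈ S, s ∈ F) → ⋂₀ S ∈ F) ∧
      (∀ X ∈ F₀, X ∈ F) ∧
      ∃ A : Set κ.ord.ToType → Set κ.ord.ToType, (∀ i, A i ∈ F) ∧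
        ∀ I : Set (Set κ.ord.ToType), #I = κ → ⋂ i ∈ I, A i ∉ F := by
  classical
  obtain ⟨D, hD⟩ := exists_indep hκ hpow
  have hsmall : ∀ J : Set (Set κ.ord.ToType), #J < κ → ∃ i, i ∉ J := by
    intro J hJ
    by_contra hcon
    push Not at hcon
    have h1 : J = Set.univ := eq_univ_of_forall hcon
    rw [h1, mk_univ, mk_set, Cardinal.mk_toType, card_ord] at hJ
    exact absurd (hJ.trans (cantor κ)) (lt_irrefl _)
  refine ⟨extFilter hκ F₀ D P, ?_, ?_, ?_, ?_⟩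
  · rw [Filter.neBot_iff]
    intro hbot
    have h0 : (∅ : Set κ.ord.ToType) ∈ extFilter hκ F₀ D P := by rw [hbot]; trivial
    obtain ⟨J, hJ, hJ2⟩ := (mem_extFilter _ _ _ _ _).1 h0
    obtain ⟨i, hi⟩ := hsmall J hJ
    obtain ⟨d, -, hd2⟩ := hD J i hJ hi
    have h1 := hJ2 d hd2
    rw [sdiff_empty] at h1
    exact hP d h1
  · intro S hS hSF
    choose! J hJ hJ2 using fun s (hs : s ∈ S) => (mem_extFilter _ _ _ _ _).1 (hSF s hs)
    refine (mem_extFilter _ _ _ _ _).2 ⟨⋃ s : S, J s.1, ?_, fun d hd3 => ?_⟩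
    · exact (card_iUnion_lt_iff_forall_of_isRegular hκ hS).2 (fun s => hJ s.1 s.2)
    · have h1 : ∀ s ∈ S, (P d \ s)ᶜ ∈ F₀ := fun s hs =>
        hJ2 s hs d (fun i hi => hd3 i (mem_iUnion.2 ⟨⟨s, hs⟩, hi⟩))
      have h2 := h₀ ((fun s => (P d \ s)ᶜ) '' S) (mk_image_le.trans_lt hS)
        (by rintro _ ⟨s, hs, rfl⟩; exact h1 s hs)
      refine Filter.mem_of_superset h2 ?_
      rintro a ha ⟨ha1, ha2⟩
      rw [mem_sInter] at ha2
      push Not at ha2
      obtain ⟨s, hs, has⟩ := ha2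
      exact (mem_sInter.1 ha _ ⟨s, hs, rfl⟩) ⟨ha1, has⟩
  · intro X hX
    refine (mem_extFilter _ _ _ _ _).2 ⟨∅, by simpa using hκ.pos, fun d _ => ?_⟩
    exact Filter.mem_of_superset hX (fun a ha h => h.2 ha)
  · refine ⟨fun i => (⋃ d ∈ (D i)ᶜ, P d)ᶜ, fun i => ?_, fun I hI hF => ?_⟩
    · refine (mem_extFilter _ _ _ _ _).2 ⟨{i}, ?_, fun d hd2 => ?_⟩
      · simpa using one_lt_aleph0.trans_le hκ.aleph0_le
      · have hdi := hd2 i rfl
        have h1 : P d \ (⋃ d ∈ (D i)ᶜ, P d)ᶜ = ∅ := by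
          rw [Set.eq_empty_iff_forall_notMem]
          rintro a ⟨ha, ha2⟩
          simp only [mem_compl_iff, not_not, mem_iUnion] at ha2
          obtain ⟨d', hd', had'⟩ := ha2
          have hne : d ≠ d' := by
            rintro rfl
            exact hd' hdi
          exact Set.disjoint_left.1 (hd d d' hne) ha had'
        rw [h1]
        simp
    · obtain ⟨J, hJ, hJ2⟩ := (mem_extFilter _ _ _ _ _).1 hF
      have hex : ∃ i ∈ I, i ∉ J := by
        by_contra hcon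
        push Not at hcon
        have := mk_le_mk_of_subset (s := I) (t := J) hcon
        rw [hI] at this
        exact absurd (this.trans_lt hJ) (lt_irrefl _)
      obtain ⟨i, hiI, hiJ⟩ := hex
      obtain ⟨d, hd1, hd2⟩ := hD J i hJ hiJ
      refine hP d (Filter.mem_of_superset (hJ2 d hd2) ?_)
      intro a ha haP
      refine ha ⟨haP, fun ha2 => ?_⟩
      have ha3 := mem_iInter₂.1 ha2 i hiI
      exact ha3 (mem_iUnion₂.2 ⟨d, hd1, haP⟩)

end Pool.Agent.TH759.GP
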