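import Pool.Agent.H348R6.GV3

set_option autoImplicit false

/-! Families of functions on a set of size `κ⁺` all of whose subfamilies of size `κ` take `κ` many
values at some point, and the Galvin property of fine normal ultrafilters. -/

namespace Pool.Agent.TH759.GP

open Cardinal Set Pool.Agent.H348R6.GV

universe u

variable {κ : Cardinal.{u}} {X : Type u}

/-- Every subfamily of size `κ` is injective at some point. -/
def Sep (κ : Cardinal.{u}) {Θ X Z : Type u} (h : Θ → X → Z) : Prop :=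
  ∀ I : Set Θ, #I = κ → ∃ z : X, Set.InjOn (fun i => h i z) I

/-- From a separated family of functions to members of a fine normal ultrafilter without large
intersections. -/
theorem not_gal_of_sep (hκ : ℵ₀ < κ)
    (U : Ultrafilter {x : Set X // #x < κ})
    (fine : ∀ a : X, {x : {x : Set X // #x < κ} | a ∈ x.1} ∈ U)
    (normal : ∀ f : {x : Set X // #x < κ} → X,
      {x : {x : Set X // #x < κ} | f x ∈ x.1} ∈ U →
        ∃ a : X, {x : {x : Set X // #x < κ} | f x = a} ∈ U)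
    {Θ : Type u} (hΘ : κ < #Θ) (h : Θ → X → X) (hh : Sep κ h) :
    ∃ S : Set (Set {x : Set X // #x < κ}), (∀ s ∈ S, s ∈ U) ∧ #S = #Θ ∧
      ∀ T ⊆ S, #T = κ → ⋂₀ T ∉ U := by
  classical
  let A : Θ → Set {x : Set X // #x < κ} := fun i => closedPts κ (h i)
  have hA : ∀ i, A i ∈ U := fun i => closedPts_mem U fine normal _
  -- key
  have key : ∀ I : Set Θ, #I = κ → ∀ B ∈ U, ∃ i ∈ I, ¬ B ⊆ A i := by
    intro I hI B hB
    by_contra hcon
    push Not at hcon
    obtain ⟨z, hz⟩ := hh I hI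
    obtain ⟨x, hxB, hxz⟩ := U.neBot.nonempty_of_mem (Filter.inter_mem hB (fine z))
    have hmem : ∀ i ∈ I, h i z ∈ x.1 := by
      intro i hi
      have h1 : x ∈ A i := hcon i hi hxB
      exact h1 z hxz
    have hle : #I ≤ #x.1 := mk_le_of_injective
      (f := fun i : I => (⟨h i.1 z, hmem i.1 i.2⟩ : x.1)) (by
        intro i j hij
        have h1 : h i.1 z = h j.1 z := congrArg Subtype.val hij
        exact Subtype.ext (hz i.2 j.2 h1))
    rw [hI] at hle
    exact absurd (hle.trans_lt x.2) (lt_irrefl _)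
  refine ⟨range A, ?_, ?_, ?_⟩
  · rintro _ ⟨i, rfl⟩
    exact hA i
  · apply le_antisymm mk_range_le
    by_contra hcon
    push Not at hcon
    have hfib : ∀ s : range A, #{i : Θ // rangeFactorization A i = s} ≤ κ := by
      rintro ⟨s, hs⟩
      by_contra hlt
      push Not at hlt
      have hex : ∃ I : Set Θ, I ⊆ {i | rangeFactorization A i = ⟨s, hs⟩} ∧ #I = κ :=
        le_mk_iff_exists_subset.1 hlt.le
      obtain ⟨I, hI1, hI2⟩ := hex
      obtain ⟨j, hj⟩ := hs
      have hs' : s ∈ U := hj ▸ hA j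
      obtain ⟨i, hi, hni⟩ := key I hI2 s hs'
      have h1 : A i = s := congrArg Subtype.val (hI1 hi)
      exact hni h1.ge
    have h1 : #Θ = Cardinal.sum (fun s : range A => #{i : Θ // rangeFactorization A i = s}) := by
      rw [← mk_sigma]
      exact (Cardinal.mk_congr (Equiv.sigmaFiberEquiv (rangeFactorization A))).symm
    have h2 : #Θ ≤ #(range A) * κ := by
      rw [h1]
      refine (sum_le_sum _ (fun _ => κ) hfib).trans ?_
      simp
    exact absurd (h2.trans_lt (mul_lt_of_lt (hκ.le.trans hΘ.le) hcon hΘ)) (lt_irrefl _)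
  · intro T hT hTκ hTU
    have hne : Nonempty Θ := by
      rw [← mk_ne_zero_iff]
      exact ((zero_le (a := κ)).trans_lt hΘ).ne'
    choose! i hi using fun t (ht : t ∈ T) => hT ht
    have hinj : Set.InjOn i T := by
      intro t ht t' ht' htt
      rw [← hi t ht, ← hi t' ht', htt]
    obtain ⟨j, ⟨t, ht, rfl⟩, hnj⟩ := key (i '' T)
      (by rw [mk_image_eq_of_injOn _ _ hinj, hTκ]) _ hTU
    rw [hi t ht] at hnj
    exact hnj (sInter_subset_of_mem ht)

/-- Eventually different functions on `κ⁺` form a separated family. -/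
theorem sep_of_eventually (hκ : ℵ₀ < κ) {Θ Z : Type u}
    (h : Θ → (Order.succ κ).ord.ToType → Z)
    (hh : ∀ i j, i ≠ j → ∃ b, ∀ a, b ≤ a → h i a ≠ h j a) : Sep κ h := by
  classical
  have hreg : (Order.succ κ).IsRegular := isRegular_succ hκ.le
  intro I hI
  have hpair : ∀ p : I × I, ∃ b, p.1.1 ≠ p.2.1 → ∀ a, b ≤ a → h p.1.1 a ≠ h p.2.1 a := by
    rintro ⟨i, j⟩
    by_cases hij : i.1 = j.1
    · have := nonempty_toType hreg
      exact ⟨Classical.arbitrary _, fun h => absurd hij h⟩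
    · obtain ⟨b, hb⟩ := hh i.1 j.1 hij
      exact ⟨b, fun _ => hb⟩
  choose b hb using hpair
  obtain ⟨β, hβ⟩ := bdd_of_lt hreg b (by
    simp only [mk_prod, lift_id, hI]
    rw [mul_eq_self hκ.le]
    exact Order.lt_succ κ)
  refine ⟨β, ?_⟩
  intro i hi j hj hij
  by_contra hne
  exact hb (⟨i, hi⟩, ⟨j, hj⟩) hne β (hβ _).le hij

/-- Composition of separated families: if the initial segments of the functions of a separated
family can be coded by the indices of another one, we get a separated family. -/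
theorem sep_comp {Θ Λ Y Y' Z : Type u} (c : Θ → Y → Λ) (g : Λ → Y' → Z)
    (hc : Sep κ c) (hg : Sep κ g) : Sep κ (fun i (p : Y × Y') => g (c i p.1) p.2) := by
  intro I hI
  obtain ⟨y, hy⟩ := hc I hI
  obtain ⟨y', hy'⟩ := hg ((fun i => c i y) '' I) (by rw [mk_image_eq_of_injOn _ _ hy, hI])
  refine ⟨(y, y'), ?_⟩
  intro i hi j hj hij
  exact hy hi hj (hy' ⟨i, hi, rfl⟩ ⟨j, hj, rfl⟩ hij)

/-- Transport of separated families along bijections. -/
theorem sep_congr {Θ Θ' Y X' Z : Type u} (h : Θ → Y → Z) (hh : Sep κ h) (eΘ : Θ' → Θ)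
    (heΘ : Function.Injective eΘ)
    (eY : X' ≃ Y) (eZ : Z ≃ X') : Sep κ (fun i x => eZ (h (eΘ i) (eY x))) := by
  intro I hI
  obtain ⟨z, hz⟩ := hh (eΘ '' I) (by rw [mk_image_eq heΘ, hI])
  refine ⟨eY.symm z, ?_⟩
  intro i hi j hj hij
  simp only [Equiv.apply_symm_apply, EmbeddingLike.apply_eq_iff_eq] at hij
  exact heΘ (hz ⟨i, hi, rfl⟩ ⟨j, hj, rfl⟩ hij)

/-- Codes of the initial segments of the subsets of `κ⁺`, if `2 ^ κ ≤ #Λ`. -/
theorem exists_codes (hκ : ℵ₀ < κ) {Λ : Type u} (hΛ : (2 : Cardinal.{u}) ^ κ ≤ #Λ) :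
    ∃ h : Set (Order.succ κ).ord.ToType → (Order.succ κ).ord.ToType → Λ,
      ∀ i j, i ≠ j → ∃ b, ∀ a, b ≤ a → h i a ≠ h j a := by
  classical
  have hreg : (Order.succ κ).IsRegular := isRegular_succ hκ.le
  have hc : ∀ a : (Order.succ κ).ord.ToType,
      ∃ c : Set (Iic a) → Λ, Function.Injective c := by
    intro a
    have h1 : #(Set (Iic a)) ≤ #Λ := by
      rw [mk_set]
      exact (power_le_power_left two_ne_zero
        (Order.lt_succ_iff.1 (mk_Iic_lt hreg a))).trans hΛ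
    obtain ⟨c⟩ := h1
    exact ⟨c, c.injective⟩
  choose c hc using hc
  refine ⟨fun E a => c a {b | b.1 ∈ E}, fun E E' hne => ?_⟩
  have : ∃ b, ¬ (b ∈ E ↔ b ∈ E') := by
    by_contra hcon
    push Not at hcon
    exact hne (Set.ext hcon)
  obtain ⟨b, hb⟩ := this
  refine ⟨b, fun a hba heq => hb ?_⟩
  have h1 := hc a heq
  have h2 := Set.ext_iff.1 h1 ⟨b, hba⟩
  simpa using h2

/-- If `2 ^ κ ≤ κ⁺⁺`, there is a separated family of `2 ^ κ⁺` functions on `κ⁺`. -/
theorem exists_sep (hκ : ℵ₀ < κ) (hX : #X = Order.succ κ)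
    (hpow : (2 : Cardinal.{u}) ^ κ ≤ Order.succ (Order.succ κ)) :
    ∃ h : Set X → X → X, Sep κ h := by
  have hXY : #X = #((Order.succ κ).ord.ToType) := by
    rw [hX, Cardinal.mk_toType, card_ord]
  obtain ⟨e⟩ := Cardinal.eq.1 hXY
  obtain ⟨c, hc⟩ := exists_codes (κ := κ) (Λ := (Order.succ (Order.succ κ)).ord.ToType) hκ
    (by rw [Cardinal.mk_toType, card_ord]; exact hpow)
  obtain ⟨g, hg⟩ := family_scale hκ
  have h1 := sep_comp c g (sep_of_eventually hκ c hc) (sep_of_eventually hκ g hg)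
  have hprod : #X = #((Order.succ κ).ord.ToType × (Order.succ κ).ord.ToType) := by
    simp only [mk_prod, lift_id, Cardinal.mk_toType, card_ord, hX]
    rw [mul_eq_self (hκ.le.trans (Order.le_succ κ))]
  obtain ⟨e2⟩ := Cardinal.eq.1 hprod
  exact ⟨_, sep_congr _ h1 (fun E : Set X => e '' E) e.injective.image_injective e2 e.symm⟩

/-- Main theorem. -/
theorem main (hκ : ℵ₀ < κ) (hX : #X = Order.succ κ)
    (U : Ultrafilter {x : Set X // #x < κ})
    (fine : ∀ a : X, {x : {x : Set X // #x < κ} | a ∈ x.1} ∈ U)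
    (normal : ∀ f : {x : Set X // #x < κ} → X,
      {x : {x : Set X // #x < κ} | f x ∈ x.1} ∈ U →
        ∃ a : X, {x : {x : Set X // #x < κ} | f x = a} ∈ U)
    (hpow : (2 : Cardinal.{u}) ^ κ ≤ Order.succ (Order.succ κ)) :
    ∃ S : Set (Set {x : Set X // #x < κ}), (∀ s ∈ S, s ∈ U) ∧
      #S = (2 : Cardinal.{u}) ^ Order.succ κ ∧ ∀ T ⊆ S, #T = κ → ⋂₀ T ∉ U := by
  obtain ⟨h, hh⟩ := exists_sep hκ hX hpow
  have hΘ : κ < #(Set X) := by
    rw [mk_set, hX]
    exact (Order.lt_succ κ).trans (cantor _)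
  obtain ⟨S, h1, h2, h3⟩ := not_gal_of_sep hκ U fine normal hΘ h hh
  exact ⟨S, h1, by rw [h2, mk_set, hX], h3⟩

/-- In ZFC, the same for `κ⁺⁺` in place of `2 ^ κ⁺`. -/
theorem main2 (hκ : ℵ₀ < κ) (hX : #X = Order.succ κ)
    (U : Ultrafilter {x : Set X // #x < κ})
    (fine : ∀ a : X, {x : {x : Set X // #x < κ} | a ∈ x.1} ∈ U)
    (normal : ∀ f : {x : Set X // #x < κ} → X,
      {x : {x : Set X // #x < κ} | f x ∈ x.1} ∈ U →
        ∃ a : X, {x : {x : Set X // #x < κ} | f x = a} ∈ U) :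
    ∃ S : Set (Set {x : Set X // #x < κ}), (∀ s ∈ S, s ∈ U) ∧
      #S = Order.succ (Order.succ κ) ∧ ∀ T ⊆ S, #T = κ → ⋂₀ T ∉ U := by
  have hXY : #X = #((Order.succ κ).ord.ToType) := by
    rw [hX, Cardinal.mk_toType, card_ord]
  obtain ⟨e⟩ := Cardinal.eq.1 hXY
  obtain ⟨g, hg⟩ := family_scale hκ
  have h1 := sep_congr _ (sep_of_eventually hκ g hg) id Function.injective_id e e.symm
  have hΘ : κ < #((Order.succ (Order.succ κ)).ord.ToType) := by
    rw [Cardinal.mk_toType, card_ord]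
    exact (Order.lt_succ κ).trans (Order.lt_succ _)
  obtain ⟨S, h1, h2, h3⟩ := not_gal_of_sep hκ U fine normal hΘ _ h1
  exact ⟨S, h1, by rw [h2, Cardinal.mk_toType, card_ord], h3⟩

end Pool.Agent.TH759.GP
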